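import Pool.Agent.Helper7.KT.St

/-!
# Project KT (MP_5176ab_co), module MIA: the main inequality for `r ≥ 4`
-/

set_option autoImplicit false

namespace Pool.Agent.Helper81.KT

open Finset SimpleGraph Filter Topology
open EX Pool.Agent.Helper7.KT

open scoped Classical

theorem cut_pos {W : Type} (F : Finset (Finset W)) (X : Finset W) (h : IsCrosscut F X)
    (E : Finset W) (hE : E ∈ F) : 1 ≤ X.card :=
  (h E hE).symm.le.trans (card_le_card inter_subset_right)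

theorem mia_sigma {U : Type} [Fintype U] (r : ℕ) (hr : 3 ≤ r) (G : SimpleGraph U) (hG : G ≠ ⊥) :
    1 ≤ crosscutNumber (expansion r G) := by
  obtain ⟨X, hX, hXc⟩ := exists_min r hr G
  obtain ⟨u, v, huv⟩ := SimpleGraph.ne_bot_iff_exists_adj.1 hG
  rw [← hXc]
  have h1 : xEdge r G ⟨s(u, v), huv⟩ ∈ expansion r G := by
    unfold expansion
    exact mem_image.2 ⟨_, mem_univ _, rfl⟩
  exact cut_pos _ X hX _ h1

theorem mia_t {U : Type} [Fintype U] (G : SimpleGraph U) (hG : G ≠ ⊥) (s t : ℕ)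
    (h : Bp G s t) : 1 ≤ t := by
  obtain ⟨u, v, huv⟩ := SimpleGraph.ne_bot_iff_exists_adj.1 hG
  obtain ⟨A, hA, -, hA2⟩ := h
  have h1 := hA u v huv
  have h2 : ∃ w, w ∉ A := by
    by_cases hu : u ∈ A
    · exact ⟨v, h1.1 hu⟩
    · exact ⟨u, hu⟩
  obtain ⟨w, hw⟩ := h2
  have h3 : 0 < (univ.filter fun u => u ∉ A).card :=
    card_pos.2 ⟨w, mem_filter.2 ⟨mem_univ _, hw⟩⟩
  omega

theorem an_le {V : Type} (Γ : SimpleGraph V) (H : Finset (Finset V)) (C x : Finset V) :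
    (An Γ H C x).card ≤ C.card := by
  unfold An
  exact card_filter_le _ _

/-- The edges with a centre. -/
theorem mia_centre (hSUP : StSUP) {V : Type} [Fintype V] (n k σ M : ℕ)
    (hn : Fintype.card V = n) (hk : 1 ≤ k) (hσ : 1 ≤ σ)
    (Γ : SimpleGraph V) (H : Finset (Finset V)) (C X : Finset V)
    (hC : C.card ≤ M) (e : ℝ)
    (hfew : (((powersetCard k univ).filter fun x : Finset V =>
      σ ≤ (An Γ H C x).card).card : ℝ) ≤ e) :
    ((∑ x ∈ powersetCard k X, (An Γ H C x).card : ℕ) : ℝ) ≤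
      ((σ : ℝ) - 1) * ((n.choose k : ℝ) - ((n - X.card).choose k : ℝ)) + M * e := by
  obtain ⟨B, hB⟩ : ∃ B, B = (powersetCard k univ).filter fun x : Finset V =>
    σ ≤ (An Γ H C x).card := ⟨_, rfl⟩
  rw [← hB] at hfew
  have h1 : ∑ x ∈ powersetCard k X, (An Γ H C x).card ≤
      (σ - 1) * X.card.choose k + M * B.card := by
    have e1 : ∀ x ∈ powersetCard k X,
        (An Γ H C x).card ≤ (σ - 1) + (if x ∈ B then M else 0) := by
      intro x hx
      split_ifs with h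
      · have := an_le Γ H C x
        omega
      · have : ¬ σ ≤ (An Γ H C x).card := by
          intro h2
          apply h
          rw [hB, mem_filter]
          exact ⟨mem_powersetCard.2 ⟨subset_univ _, (mem_powersetCard.1 hx).2⟩, h2⟩
        omega
    refine (sum_le_sum e1).trans ?_
    rw [sum_add_distrib, sum_const, smul_eq_mul, card_powersetCard, mul_comm]
    refine Nat.add_le_add_left ?_ _
    rw [← sum_filter, sum_const, smul_eq_mul, mul_comm]
    refine Nat.mul_le_mul_left _ (card_le_card ?_)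
    intro x hx
    exact (mem_filter.1 hx).2
  have h2 : X.card ≤ n := by
    rw [← hn]
    exact card_le_univ X
  have h3 := hSUP n X.card k h2 hk
  have h4 : ((∑ x ∈ powersetCard k X, (An Γ H C x).card : ℕ) : ℝ) ≤
      ((σ - 1 : ℕ) : ℝ) * X.card.choose k + M * B.card := by exact_mod_cast h1
  have h5 : ((σ - 1 : ℕ) : ℝ) = (σ : ℝ) - 1 := by rw [Nat.cast_sub hσ, Nat.cast_one]
  have h6 : (X.card.choose k : ℝ) + ((n - X.card).choose k : ℝ) ≤ n.choose k := by
    exact_mod_cast h3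
  have h7 : (0 : ℝ) ≤ (σ : ℝ) - 1 := by rw [← h5]; positivity
  have h8 : ((σ : ℝ) - 1) * (X.card.choose k : ℝ) ≤
      ((σ : ℝ) - 1) * ((n.choose k : ℝ) - ((n - X.card).choose k : ℝ)) :=
    mul_le_mul_of_nonneg_left (by linarith) h7
  have h9 : (M : ℝ) * B.card ≤ M * e := mul_le_mul_of_nonneg_left hfew (by positivity)
  rw [h5] at h4
  linarith

/-- The cliques. -/
theorem mia_clique {V : Type} [Fintype V] (r : ℕ) (Γ : SimpleGraph V) (H : Finset (Finset V))
    (hH : ∀ E ∈ H, E.card = r) (C X : Finset V)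
    (hX : ∀ v, v ∈ X ↔ ∃ c ∈ C, Γ.Adj c v) :
    (H.filter fun E => Cq Γ E).card ≤ kc Γ r (univ \ X) + ∑ c ∈ C, km Γ r (nb Γ univ c) := by
  have h1 : (H.filter fun E => Cq Γ E) ⊆
      ((powersetCard r (univ \ X)).filter fun T : Finset V => Γ.IsClique (T : Set V)) ∪
      C.biUnion fun c => ((powersetCard r univ).filter fun T : Finset V =>
        Γ.IsClique (T : Set V) ∧ ∃ v ∈ T, v ∈ nb Γ univ c) := by
    intro E hE
    obtain ⟨h1, h2⟩ := mem_filter.1 hE
    have h3 : Γ.IsClique (E : Set V) := fun u hu v hv huv => h2 u hu v hv huv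
    rw [mem_union]
    by_cases h4 : ∃ v ∈ E, v ∈ X
    · right
      obtain ⟨v, hv, hvX⟩ := h4
      obtain ⟨c, hc, hcv⟩ := (hX v).1 hvX
      refine mem_biUnion.2 ⟨c, hc, mem_filter.2 ⟨mem_powersetCard.2 ⟨subset_univ _, hH E h1⟩,
        h3, v, hv, ?_⟩⟩
      unfold nb
      exact mem_filter.2 ⟨mem_univ _, hcv⟩
    · left
      push Not at h4
      exact mem_filter.2 ⟨mem_powersetCard.2 ⟨fun v hv => mem_sdiff.2 ⟨mem_univ _, h4 v hv⟩,
        hH E h1⟩, h3⟩
  have h2 : (C.biUnion fun c => ((powersetCard r univ).filter fun T : Finset V =>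
      Γ.IsClique (T : Set V) ∧ ∃ v ∈ T, v ∈ nb Γ univ c)).card ≤
      ∑ c ∈ C, km Γ r (nb Γ univ c) := card_biUnion_le
  exact (card_le_card h1).trans ((card_union_le _ _).trans (Nat.add_le_add_left h2 _))

/-- All edges. -/
theorem mia_total (hSUP : StSUP) {U : Type} (G : SimpleGraph U) {V : Type} [Fintype V]
    (n k σ M : ℕ) (hn : Fintype.card V = n) (hk : 1 ≤ k) (hσ : 1 ≤ σ)
    (Γ : SimpleGraph V) (H : Finset (Finset V)) (hH : ∀ E ∈ H, E.card = k + 1)
    (C : Finset V) (hC : C.card ≤ M) (a e : ℝ) (he : 0 ≤ e)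
    (hstr : ((H.filter fun E => ¬ Cq Γ E ∧ ¬ Ce Γ C E).card : ℝ) ≤ a)
    (hfew : (((powersetCard k univ).filter fun x : Finset V =>
      σ ≤ (An Γ H C x).card).card : ℝ) ≤ e)
    (hgct : (H.filter fun E => Ce Γ C E).card ≤
      ∑ x ∈ powersetCard k (univ.filter fun v => ∃ c ∈ C, Γ.Adj c v), (An Γ H C x).card)
    (hkm : ∀ c ∈ C, (km Γ (k + 1) (nb Γ univ c) : ℝ) ≤ e)
    (hkex : ∀ S : Finset V, kc Γ (k + 1) S ≤ exK S.card (k + 1) G) :
    ∃ x ≤ n, (H.card : ℝ) ≤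
      ((σ : ℝ) - 1) * ((n.choose k : ℝ) - ((n - x).choose k : ℝ)) +
        (exK (n - x) (k + 1) G : ℝ) + (a + 2 * (M * e)) := by
  obtain ⟨X, hX⟩ : ∃ X, X = univ.filter fun v => ∃ c ∈ C, Γ.Adj c v := ⟨_, rfl⟩
  rw [← hX] at hgct
  have g5 := mia_centre hSUP n k σ M hn hk hσ Γ H C X hC e hfew
  have g6 := mia_clique (k + 1) Γ H hH C X (by
    intro v
    rw [hX, mem_filter]
    exact ⟨fun h => h.2, fun h => ⟨mem_univ _, h⟩⟩)
  have g7 : kc Γ (k + 1) (univ \ X) ≤ exK (n - X.card) (k + 1) G := by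
    have := hkex (univ \ X)
    rwa [card_sdiff_of_subset (subset_univ X), card_univ, hn] at this
  have g9 : ((∑ c ∈ C, km Γ (k + 1) (nb Γ univ c) : ℕ) : ℝ) ≤ M * e := by
    push_cast
    refine (sum_le_sum hkm).trans ?_
    rw [sum_const, nsmul_eq_mul]
    exact mul_le_mul_of_nonneg_right (by exact_mod_cast hC) he
  have g10 : H.card ≤ (H.filter fun E => ¬ Cq Γ E ∧ ¬ Ce Γ C E).card +
      (H.filter fun E => Ce Γ C E).card + (H.filter fun E => Cq Γ E).card := by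
    refine (card_le_card (t := ((H.filter fun E => ¬ Cq Γ E ∧ ¬ Ce Γ C E) ∪
      (H.filter fun E => Ce Γ C E)) ∪ (H.filter fun E => Cq Γ E)) ?_).trans
      ((card_union_le _ _).trans (Nat.add_le_add_right (card_union_le _ _) _))
    intro E hE
    simp only [mem_union, mem_filter]
    tauto
  refine ⟨X.card, by rw [← hn]; exact card_le_univ X, ?_⟩
  have g13 : (H.card : ℝ) ≤ ((H.filter fun E => ¬ Cq Γ E ∧ ¬ Ce Γ C E).card : ℝ) +
      ((H.filter fun E => Ce Γ C E).card : ℝ) + ((H.filter fun E => Cq Γ E).card : ℝ) := by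
    exact_mod_cast g10
  have g14 : ((H.filter fun E => Ce Γ C E).card : ℝ) ≤
      ((∑ x ∈ powersetCard k X, (An Γ H C x).card : ℕ) : ℝ) := by exact_mod_cast hgct
  have g15 : ((H.filter fun E => Cq Γ E).card : ℝ) ≤
      (exK (n - X.card) (k + 1) G : ℝ) + ((∑ c ∈ C, km Γ (k + 1) (nb Γ univ c) : ℕ) : ℝ) := by
    exact_mod_cast g6.trans (Nat.add_le_add_right g7 _)
  linarith

/-- Module MIA. -/
theorem hMIA (hKFG : StKFG) (hRGF : StRGF) (hCEN : StCEN) (hNBC : StNBC) (hKME : StKME)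
    (hKEX : StKEX) (hSUP : StSUP) (hSTR : StSTR) (hFEW : StFEW) (hGCT : StGCT) : StMIA := by
  intro r hr U _ G t hBp hG ε hε
  obtain ⟨k, rfl⟩ : ∃ k, r = k + 1 := ⟨r - 1, by omega⟩
  have hk : 3 ≤ k := by omega
  have ht : 1 ≤ t := mia_t G hG _ t hBp
  have hσ : 1 ≤ crosscutNumber (expansion (k + 1) G) := mia_sigma (k + 1) (by omega) G hG
  have hs : 1 ≤ (k + 1).choose 2 := Nat.choose_pos (by omega)
  obtain ⟨δ, hδ, hstr⟩ := hSTR k hk U G _ t hBp hs hG (ε / 4) (by positivity)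
  obtain ⟨M, hcen⟩ := hCEN _ t hs δ hδ
  have hε2 : 0 < ε / (4 * (M : ℝ) + 4) := by positivity
  filter_upwards [hstr, hcen, hFEW k hk U G _ t hBp hG M _ hε2,
    hKME (k + 1) t (t - 1) (by omega) ht _ hε2] with n h1 h2 h3 h4
  rw [Nat.add_sub_cancel] at h4 ⊢
  rcases Nat.eq_zero_or_pos (exr (k + 1) n (expansion (k + 1) G)) with h0 | hpos
  · refine ⟨0, Nat.zero_le _, ?_⟩
    rw [h0, Nat.sub_zero, sub_self, mul_zero, zero_add, Nat.cast_zero]
    positivity
  · obtain ⟨H, hH, hfree, hcard⟩ := exr_spec _ _ _ hpos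
    have hFr : Fr k G H := ⟨hH, hfree⟩
    have hGF : G.Free (Γr k G H) := hRGF k (by omega) U G (Fin n) H hFr
    have hKF : KF (Γr k G H) ((k + 1).choose 2) t univ :=
      hKFG U G _ t hBp (Fin n) (Γr k G H) hGF univ
    have g2 : (Ct (Γr k G H) δ).card ≤ M := h2 _ hKF
    have g8 : ∀ c ∈ Ct (Γr k G H) δ, (km (Γr k G H) (k + 1) (nb (Γr k G H) univ c) : ℝ) ≤
        ε / (4 * (M : ℝ) + 4) * (n : ℝ) ^ k := by
      intro c _
      refine h4 _ hKF _ ?_
      have := hNBC (Fin n) (Γr k G H) ((k + 1).choose 2) t c hs hKF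
      rwa [Fintype.card_fin] at this
    obtain ⟨x, hx, h⟩ := mia_total hSUP G n k (crosscutNumber (expansion (k + 1) G)) M
      (Fintype.card_fin n) (by omega) hσ (Γr k G H) H hH (Ct (Γr k G H) δ) g2
      (ε / 4 * (n : ℝ) ^ k) (ε / (4 * (M : ℝ) + 4) * (n : ℝ) ^ k) (by positivity)
      (h1 H hFr) (h3 H hFr _ g2) (hGCT (Fin n) (Γr k G H) k H _ hH) g8
      (fun S => hKEX U G (Fin n) (Γr k G H) hGF (k + 1) S)
    refine ⟨x, hx, ?_⟩
    have g11 : (M : ℝ) * (ε / (4 * (M : ℝ) + 4)) ≤ ε / 4 := by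
      rw [← mul_div_assoc, div_le_div_iff₀ (by positivity) (by positivity)]
      nlinarith
    have g12 : (M : ℝ) * (ε / (4 * (M : ℝ) + 4) * (n : ℝ) ^ k) ≤ ε / 4 * (n : ℝ) ^ k := by
      rw [← mul_assoc]
      exact mul_le_mul_of_nonneg_right g11 (by positivity)
    have g16 : (0 : ℝ) ≤ ε * (n : ℝ) ^ k := by positivity
    rw [← hcard]
    linarith

end Pool.Agent.Helper81.KT
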